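import Pool.Agent.Lib.MP_2e34cc_co.Proof

/-!
Denominators in a ratio of two basic hypergeometric series: for every
`n ≥ 0` there is `P ∈ ℤ[a,b,c,q]` with
`γ_n / (1 - c) = P / ∏_{k=0}^{n} (1 - c q^k)^⌊(n+1)/(k+1)⌋`.
The definitions are in `Pool/Agent/Lib/MP_2e34cc_co/Defs.lean`.
-/

open Pool.Agent.Lib.MP_2e34cc_co

namespace Pool.Agent.Results.MP_2e34cc_co.Denominators

/-- **Main theorem.** For every `n` there is a polynomial `P ∈ ℤ[a,b,c,q]` such that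
`γ_n / (1 - c) = P(a,b,c,q) / ∏_{k=0}^{n} (1 - c q^k)^⌊(n+1)/(k+1)⌋`. -/
theorem result : ∀ n : ℕ, ∃ P : MvPolynomial (Fin 4) ℤ,
    gamma n / (1 - c) = MvPolynomial.aeval ![a, b, c, q] P /
      ∏ k ∈ Finset.range (n + 1), (1 - c * q ^ k) ^ ((n + 1) / (k + 1)) := by
  intro n
  obtain ⟨P, hP⟩ := main n
  refine ⟨P, ?_⟩
  have hD : D (n + 1) (n + 1) ≠ 0 :=
    Finset.prod_ne_zero_iff.2 fun k _ => pow_ne_zero _ (one_sub_c_ne k)
  refine (eq_div_iff hD).2 ?_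
  rw [← coeff_T, mul_comm]
  exact hP.symm

end Pool.Agent.Results.MP_2e34cc_co.Denominators
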